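import Pool.Agent.H88.MCR.Stmts3
import Pool.Agent.H26.MCR.CLA

/-!
Row CLR of board mcr (helper52; the proof of the row CLA of helper26).
-/

set_option autoImplicit false

namespace Pool.MCR

open CLAaux in
theorem clr_thm : CLR_S := by
  intro L _ R n D w x r hG hw hx hR
  have hwx : w ≠ x := fun h => hG.irr x (by rw [h] at hR; exact hR)
  have hxw : x ≠ w := fun h => hwx h.symm
  have hl : ∀ d ∈ D.E w x, d ≠ D.pos w ∧ d ≠ D.pos x := by
    intro d hd
    constructor
    · rintro rfl
      exact hG.notin w hw x hx w hw hR hd
    · rintro rfl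
      exact hG.notin w hw x hx x hx hR hd
  have hxn : x ≠ n := hx.ne
  have hP : (clone D n w r).P n x =
      lp (D.pos w) 1 :: (newE D w r x ++ [lp (D.pos x) 0]) := by
    unfold Diag.P clone
    simp [hxn]
  have hS : (clone D n w r).S n x = false := by
    unfold clone
    simp [hxw]
  unfold Diag.A
  rw [hP, hS]
  have h := head D w x r (D.E w x) (D.S w x) hl
  unfold Diag.P
  rw [← h]
  unfold newE
  rw [if_neg hxw]
  cases hSx : D.S w x with
  | false => simp
  | true =>
    simp only [if_true, List.cons_append, List.nil_append]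
    rw [arcs_cc]
    rfl

end Pool.MCR
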